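import Mathlib
import Pool.Agent.H25.SRank

set_option autoImplicit false

namespace Pool.Agent.Results.MP_2f4f34_gt.Countable

open Set Filter Topology Cardinal

/-- The bounding number: the least size of a family in `ℕ → ℕ` with no eventual upper bound. -/
noncomputable def bb : Cardinal.{0} :=
  sInf {c | ∃ F : Set (ℕ → ℕ), #F = c ∧ ¬ ∃ g : ℕ → ℕ, ∀ f ∈ F, ∀ᶠ n in atTop, f n ≤ g n}

/-- `t` is a Hausdorff group topology in which every sequence of `S` converges to the identity. -/
def Adm {G : Type} [Group G] (S : Set (ℕ → G)) (t : TopologicalSpace G) : Prop :=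
  @IsTopologicalGroup G t _ ∧ @T2Space G t ∧ ∀ u ∈ S, Tendsto u atTop (@nhds G t 1)

/-- The sequence-rank: the least size of a set `S` of sequences such that the given topology is the
finest Hausdorff group topology making all of `S` converge to the identity. -/
noncomputable def rs (G : Type) [Group G] [t : TopologicalSpace G] : Cardinal.{0} :=
  sInf {c | ∃ S : Set (ℕ → G), #S = c ∧ Adm S t ∧ ∀ t', Adm S t' → t ≤ t'}

theorem result (G : Type) [Group G] [Countable G] [t : TopologicalSpace G] [IsTopologicalGroup G]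
    [T2Space G] [FrechetUrysohnSpace G] :
    (¬ DiscreteTopology G → bb ≤ rs G) ∧ (ℵ_ 1 < bb → rs G ≠ ℵ_ 1) := by
  have h : ¬ DiscreteTopology G → bb ≤ rs G := fun hn => by
    refine le_csInf ⟨_, {u | Tendsto u atTop (𝓝 1)}, rfl, ⟨‹_›, ‹_›, fun _ h => h⟩, fun t' h =>
      continuous_id_iff_le.1 (@continuous_of_continuousAt_one G t _ _ G _ _ t' h.1.toContinuousMul
        _ _ (MonoidHom.id G) ((@tendsto_nhds_iff_seq_tendsto G G t t' _ _ _ _).2 h.2.2))⟩ ?_
    rintro _ ⟨S, rfl, h1, h2⟩
    refine not_lt.1 fun e => hn (Pool.Agent.H25.SRank.main S h1.2.2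
      (fun t' a b c => h2 t' ⟨a, b, c⟩) fun φ => by_contra fun hφ => ?_)
    exact (mk_range_le.trans_lt e).not_ge (csInf_le' ⟨range φ, rfl, by simpa using hφ⟩)
  refine ⟨h, fun h1 h2 => ?_⟩
  by_cases e : DiscreteTopology G
  · have : rs G ≤ 0 := csInf_le' ⟨∅, by simp, ⟨‹_›, ‹_›, by simp⟩, fun t' _ =>
      e.eq_bot.trans_le bot_le⟩
    exact (aleph_pos 1).not_ge (h2 ▸ this)
  · exact h1.not_ge (h2 ▸ h e)

end Pool.Agent.Results.MP_2f4f34_gt.Countable
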